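import Pool.Agent.helper86.BK.Spec

/-!
# Project bk, module DIG (MP_bb5cc8_nt): digits
-/

set_option autoImplicit false

namespace Pool.Agent.BK

theorem DIG_sum (D : ℕ) (m : ℕ) : ∀ j : ℕ,
    ∑ i ∈ Finset.range j, (m / D ^ i % D) * D ^ i = m % D ^ j := by
  intro j
  induction j with
  | zero => simp [Nat.mod_one]
  | succ j ih =>
    rw [Finset.sum_range_succ, ih, Nat.mod_pow_succ, mul_comm (m / D ^ j % D)]

theorem DIG : DIG_stmt := by
  classical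
  intro j D L B hD h
  refine ⟨B.image (fun x => ∑ i : Fin j, x i * (D : ℤ) ^ (i : ℕ)), Finset.card_image_le, ?_⟩
  intro m hm
  obtain ⟨b, hb⟩ := h (fun i => m / D ^ (i : ℕ) % D) (fun i => Nat.mod_lt _ hD)
  refine ⟨∑ i : Fin j, b i * (D : ℤ) ^ (i : ℕ), ?_⟩
  intro k hk
  have h1 := hb k hk
  have h2 : ∑ i : Fin j, (b i + (k : ℤ) * ((m / D ^ (i : ℕ) % D : ℕ) : ℤ)) * (D : ℤ) ^ (i : ℕ) =
      ∑ i : Fin j, b i * (D : ℤ) ^ (i : ℕ) + k * m := by
    have h3 : (∑ i : Fin j, (m / D ^ (i : ℕ) % D) * D ^ (i : ℕ)) = m := by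
      rw [Fin.sum_univ_eq_sum_range (fun i => (m / D ^ i % D) * D ^ i) j, DIG_sum,
        Nat.mod_eq_of_lt hm]
    have h4 : (m : ℤ) = ∑ i : Fin j, ((m / D ^ (i : ℕ) % D : ℕ) : ℤ) * (D : ℤ) ^ (i : ℕ) := by
      conv_lhs => rw [← h3]
      push_cast
      rfl
    conv_rhs => rw [h4]
    rw [Finset.mul_sum, ← Finset.sum_add_distrib]
    refine Finset.sum_congr rfl fun i _ => ?_
    ring
  rw [← h2]
  exact Finset.mem_image_of_mem (fun x : Fin j → ℤ => ∑ i : Fin j, x i * (D : ℤ) ^ (i : ℕ)) h1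

end Pool.Agent.BK
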